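import Pool.Agent.R401.One

/-!
# Representations of weight zero: one `ℓ`-adic representation is enough
-/

set_option autoImplicit false
set_option maxHeartbeats 400000

namespace Pool.Agent.N210.WZ

open NumberField Filter Topology Matrix Polynomial Pool.Agent.W569.FM Pool.Agent.R401.Dens
  Pool.Agent.R401.RS Pool.Agent.R401.Img Pool.Agent.R401.DS

/-- the family `f` of polynomials is attached to `ρ` outside `B` -/
def Attached {k : Type} [Field k] {n : ℕ} (ρ : GF ℚ →* GL (Fin n) k) (B : Set ℕ)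
    (f : ℕ → k[X]) : Prop :=
  ∀ p, p.Prime → p ∉ B → Att ρ p (f p)

section one

variable {K : Type} [Field K] [NumberField K] {n : ℕ}

theorem count_bound {B : Set ℕ} (hB : B.Finite) (Z : Set ℕ) {ε : ℝ} (hε : 0 < ε)
    (hZ : ∀ x : ℕ, (cnt {p | p ∉ B ∧ p ∈ Z} x : ℝ) ≤ ε / 2 * Nat.primeCounting x) :
    ∀ᶠ N : ℕ in atTop, (cnt (B ∪ {p | p ∉ B ∧ p ∈ Z}) N : ℝ) ≤ ε * Nat.primeCounting N := by
  have h7 : Tendsto (fun N : ℕ => ε / 2 * (Nat.primeCounting N : ℝ)) atTop atTop :=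
    (tendsto_natCast_atTop_atTop.comp Nat.tendsto_primeCounting).const_mul_atTop (half_pos hε)
  filter_upwards [h7.eventually_ge_atTop ((B.ncard : ℕ) : ℝ)] with N hN
  have h8 : cnt (B ∪ {p | p ∉ B ∧ p ∈ Z}) N ≤ B.ncard + cnt {p | p ∉ B ∧ p ∈ Z} N := by
    unfold cnt
    have hfin := finite_sub {p | p ∉ B ∧ p ∈ Z} N
    have h9 : ∀ X : Set ℕ, Nat.card {p : ℕ // p ≤ N ∧ p.Prime ∧ p ∈ X} =
        ({p : ℕ | p ≤ N ∧ p.Prime ∧ p ∈ X} : Set ℕ).ncard := fun X => rfl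
    rw [h9, h9]
    have h10 : ({p : ℕ | p ≤ N ∧ p.Prime ∧ p ∈ B ∪ {p | p ∉ B ∧ p ∈ Z}} : Set ℕ) ⊆
        B ∪ {p : ℕ | p ≤ N ∧ p.Prime ∧ p ∈ {p | p ∉ B ∧ p ∈ Z}} := by
      rintro p ⟨h1, h2, h3 | h3⟩
      · exact Or.inl h3
      · exact Or.inr ⟨h1, h2, h3⟩
    refine (Set.ncard_le_ncard h10 (hB.union ((Set.finite_Iic N).subset fun _ h => h.1))).trans ?_
    exact Set.ncard_union_le _ _
  have h9 := hZ N
  have h10 : (cnt (B ∪ {p | p ∉ B ∧ p ∈ Z}) N : ℝ) ≤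
      (B.ncard : ℝ) + cnt {p | p ∉ B ∧ p ∈ Z} N := by exact_mod_cast h8
  linarith

/-- **One `ℓ`-adic representation.** -/
theorem of_one (hn : 0 < n) {B : Set ℕ} (hB : B.Finite) (f : ℕ → (𝓞 K)[X])
    (hRS : ∀ σ : K →+* ℂ, ∃ C : ℝ, ∀ x : ℕ,
      ∑ᶠ p ∈ primesUpTo B x, ‖σ ((f p).coeff (n - 1))‖ ^ 2 ≤ C * Nat.primeCounting x)
    {Ω : Type} [NormedField Ω] [IsUltrametricDist Ω] [CharZero Ω] (φ : K →+* Ω)
    (ρ : GF ℚ →* GL (Fin n) Ω) (hρ : Continuous ρ) (hss : SS ρ)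
    (hatt : Attached ρ B (fun p => (f p).map (φ.comp (algebraMap (𝓞 K) K)))) :
    ∃ (L : Type) (_ : Field L) (_ : Algebra K L), FiniteDimensional K L ∧
      ∃ R : GF ℚ →* GL (Fin n) L, IsOpen (R.ker : Set (GF ℚ)) ∧
        Attached R B (fun p => (f p).map ((algebraMap K L).comp (algebraMap (𝓞 K) K))) := by
  classical
  set ψ : 𝓞 K →+* Ω := φ.comp (algebraMap (𝓞 K) K) with hψ
  have hψinj : Function.Injective ψ :=
    φ.injective.comp (FaithfulSMul.algebraMap_injective (𝓞 K) K)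
  have hψP : Function.Injective (Polynomial.map ψ) := Polynomial.map_injective ψ hψinj
  set ε : ℝ := 1 / (2 * ((n : ℝ) ^ 2 + 1)) with hε
  have hε0 : 0 < ε := by positivity
  obtain ⟨Y, hY, hYcnt⟩ := exists_finite B (fun p => (f p).coeff (n - 1)) hRS (half_pos hε0)
  have hopen : IsOpen (ρ.ker : Set (GF ℚ)) := by
    refine Pool.Agent.R401.One.finite_image ρ hρ hss (Y := (fun y => -ψ y) '' Y) (hY.image _)
      (B ∪ {p | p ∉ B ∧ p ∈ {p | (f p).coeff (n - 1) ∉ Y}}) ?_ ?_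
    · intro p hp hpX P hP hpP g hg
      simp only [Set.mem_union, not_or, Set.mem_setOf_eq, not_and, not_not] at hpX
      obtain ⟨hpB, hpY⟩ := hpX
      refine ⟨_, hpY hpB, ?_⟩
      have h2 := (hatt p hp hpB).frob P hP.isPrime hpP g hg
      have : Nonempty (Fin n) := ⟨⟨0, hn⟩⟩
      rw [Matrix.trace_eq_neg_charpoly_coeff, h2, coeff_map, Fintype.card_fin]
    · exact count_bound hB {p | (f p).coeff (n - 1) ∉ Y} hε0 hYcnt
  have hfin : Finite (GF ℚ ⧸ ρ.ker) := Subgroup.quotient_finite_of_isOpen _ hopen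
  have hfrob : ∀ γ : GF ℚ ⧸ ρ.ker, ∃ (p : ℕ) (P : Ideal (OO ℚ)) (σ : GF ℚ), p.Prime ∧ p ∉ B ∧
      P.IsMaximal ∧ (p : OO ℚ) ∈ P ∧ FrobAt p P σ ∧ ((σ⁻¹ : GF ℚ) : GF ℚ ⧸ ρ.ker) = γ := by
    intro γ
    induction γ using QuotientGroup.induction_on with
    | H g =>
    obtain ⟨p, P, σ, hp, hpB, hP, hpP, hσ, hgσ⟩ := exists_frob ρ.ker hopen hB g⁻¹
    refine ⟨p, P, σ, hp, hpB, hP, hpP, hσ, ?_⟩
    rw [inv_inv, MonoidHom.mem_ker, map_mul] at hgσ
    rw [QuotientGroup.eq, inv_inv, MonoidHom.mem_ker, map_mul]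
    rw [mul_eq_one_iff_eq_inv] at hgσ ⊢
    rw [hgσ, inv_inv]
  choose pr P σ hpr hprB hP hpP hσ hσγ using hfrob
  let ρ' : (GF ℚ ⧸ ρ.ker) →* GL (Fin n) Ω := QuotientGroup.lift ρ.ker ρ le_rfl
  have hρ' : ∀ g : GF ℚ, ρ' (g : GF ℚ ⧸ ρ.ker) = ρ g := fun g => rfl
  have hch : ∀ γ, ((ρ' γ : GL (Fin n) Ω) : Matrix (Fin n) (Fin n) Ω).charpoly =
      (f (pr γ)).map ψ := by
    intro γ
    have h2 : (mt ρ (σ γ)⁻¹).charpoly = (f (pr γ)).map ψ :=
      (hatt (pr γ) (hpr γ) (hprB γ)).frob (P γ) (hP γ).isPrime (hpP γ) (σ γ) (hσ γ)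
    rw [← h2]
    have h3 := hρ' (σ γ)⁻¹
    rw [hσγ γ] at h3
    rw [h3]
    rfl
  obtain ⟨L, iL, iA, hfd, R, hR⟩ := Pool.Agent.R401.Glue.exists_rep (K := K) (O := 𝓞 K) (J := ℕ)
    (fun _ => Ω) (fun _ => ψ) (by
      intro x hx
      have : {j : ℕ | ψ x = 0} = ∅ := by
        ext j
        simp only [Set.mem_setOf_eq, Set.mem_empty_iff_false, iff_false]
        intro h
        exact hx (hψinj (h.trans (map_zero ψ).symm))
      rw [this]
      exact Set.finite_empty) (fun _ => ρ') (fun γ => f (pr γ)) (by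
      intro γ
      have : {j : ℕ | ((ρ' γ : GL (Fin n) Ω) : Matrix (Fin n) (Fin n) Ω).charpoly ≠
          (f (pr γ)).map ψ} = ∅ := by
        ext j
        simp [hch γ]
      rw [this]
      exact Set.finite_empty)
  refine ⟨L, iL, iA, hfd, R.comp (QuotientGroup.mk' ρ.ker), ?_, ?_⟩
  · refine Subgroup.isOpen_mono (H₁ := ρ.ker) ?_ hopen
    intro g hg
    rw [MonoidHom.mem_ker, MonoidHom.comp_apply, QuotientGroup.mk'_apply,
      (QuotientGroup.eq_one_iff g).2 hg, map_one]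
  · intro p hp hpB
    constructor
    · intro Q hQ hpQ g hg
      have h1 := (hatt p hp hpB).unr Q hQ hpQ g hg
      rw [MonoidHom.comp_apply, QuotientGroup.mk'_apply,
        (QuotientGroup.eq_one_iff g).2 (MonoidHom.mem_ker.2 h1), map_one]
    · intro Q hQ hpQ g hg
      have h1 : (mt ρ g⁻¹).charpoly = (f p).map ψ := (hatt p hp hpB).frob Q hQ hpQ g hg
      have h2 : (f p).map ψ = (f (pr ((g⁻¹ : GF ℚ) : GF ℚ ⧸ ρ.ker))).map ψ := by
        rw [← hch, hρ', ← h1]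
        rfl
      have h3 := hψP h2
      have h4 := hR ((g⁻¹ : GF ℚ) : GF ℚ ⧸ ρ.ker)
      rw [← h3] at h4
      exact h4

end one

section all

variable {K : Type} [Field K] {O : Type} [CommRing O] [Algebra O K] {n : ℕ}

/-- **Transfer** to an algebraically closed field. -/
theorem transfer {L : Type} [Field L] [Algebra K L] [Algebra.IsAlgebraic K L] {B : Set ℕ}
    (f : ℕ → O[X]) (R : GF ℚ →* GL (Fin n) L) (hR : IsOpen (R.ker : Set (GF ℚ)))
    (hatt : Attached R B (fun p => (f p).map ((algebraMap K L).comp (algebraMap O K))))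
    {Ω : Type} [Field Ω] [IsAlgClosed Ω] (ι : K →+* Ω) :
    ∃ ρ : GF ℚ →* GL (Fin n) Ω, IsOpen (ρ.ker : Set (GF ℚ)) ∧
      Attached ρ B (fun p => (f p).map (ι.comp (algebraMap O K))) := by
  letI : Algebra K Ω := ι.toAlgebra
  let τ : L →ₐ[K] Ω := IsAlgClosed.lift
  have hτ : (τ : L →+* Ω).comp (algebraMap K L) = ι := by
    ext x
    exact τ.commutes x
  refine ⟨(Matrix.GeneralLinearGroup.map (n := Fin n) (τ : L →+* Ω)).comp R, ?_, ?_⟩
  · refine Subgroup.isOpen_mono (H₁ := R.ker) ?_ hR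
    intro g hg
    rw [MonoidHom.mem_ker] at hg ⊢
    rw [MonoidHom.comp_apply, hg, map_one]
  · intro p hp hpB
    constructor
    · intro Q hQ hpQ g hg
      rw [MonoidHom.comp_apply, (hatt p hp hpB).unr Q hQ hpQ g hg, map_one]
    · intro Q hQ hpQ g hg
      have h1 := (hatt p hp hpB).frob Q hQ hpQ g hg
      have h2 : mt ((Matrix.GeneralLinearGroup.map (n := Fin n) (τ : L →+* Ω)).comp R) g⁻¹ =
          (mt R g⁻¹).map (τ : L →+* Ω) := rfl
      rw [h2, Matrix.charpoly_map, h1, Polynomial.map_map, ← RingHom.comp_assoc, hτ]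

/-- **Roots of unity.** -/
theorem roots {L : Type} [Field L] [Algebra K L] [Algebra.IsAlgebraic K L] {B : Set ℕ}
    (f : ℕ → O[X]) (R : GF ℚ →* GL (Fin n) L) (hR : IsOpen (R.ker : Set (GF ℚ)))
    (hatt : Attached R B (fun p => (f p).map ((algebraMap K L).comp (algebraMap O K)))) :
    ∃ m : ℕ, 0 < m ∧ ∀ p, p.Prime → p ∉ B → ∀ (σ : K →+* ℂ) (z : ℂ),
      ((f p).map (σ.comp (algebraMap O K))).IsRoot z → z ^ m = 1 := by
  have hfin : Finite (GF ℚ ⧸ R.ker) := Subgroup.quotient_finite_of_isOpen _ hR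
  refine ⟨Nat.card (GF ℚ ⧸ R.ker), Nat.card_pos, ?_⟩
  intro p hp hpB σ z hz
  obtain ⟨⟨P, h1, h2, g, h3⟩, -⟩ := Pool.Agent.W571.FM.main p hp
  letI : Algebra K ℂ := σ.toAlgebra
  let τ : L →ₐ[K] ℂ := IsAlgClosed.lift
  have hτ : (τ : L →+* ℂ).comp (algebraMap K L) = σ := by
    ext x
    exact τ.commutes x
  have h4 := (hatt p hp hpB).frob P h1.isPrime h2 g h3
  set M : Matrix (Fin n) (Fin n) ℂ := (mt R g⁻¹).map (τ : L →+* ℂ) with hM
  have h5 : M.charpoly = (f p).map (σ.comp (algebraMap O K)) := by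
    rw [hM, Matrix.charpoly_map, h4, Polynomial.map_map, ← RingHom.comp_assoc, hτ]
  have h6 : M ^ Nat.card (GF ℚ ⧸ R.ker) = 1 := by
    have h7 : (R g⁻¹) ^ Nat.card (GF ℚ ⧸ R.ker) = 1 := by
      rw [← map_pow, ← MonoidHom.mem_ker, ← QuotientGroup.eq_one_iff, QuotientGroup.mk_pow]
      exact pow_card_eq_one'
    have h8 : (mt R g⁻¹) ^ Nat.card (GF ℚ ⧸ R.ker) = 1 := by
      have h9 := congrArg Units.val h7
      rw [Units.val_pow_eq_pow_val, Units.val_one] at h9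
      exact h9
    rw [hM, ← Matrix.map_pow, h8, Matrix.map_one _ (map_zero _) (map_one _)]
  have h7 : z ∈ spectrum ℂ M := by
    rw [Matrix.mem_spectrum_iff_isRoot_charpoly, h5]
    exact hz
  have h8 := spectrum.pow_mem_pow M (Nat.card (GF ℚ ⧸ R.ker)) h7
  rw [h6] at h8
  by_cases hn : n = 0
  · subst hn
    rw [← h5] at hz
    simp [Matrix.charpoly, Polynomial.IsRoot] at hz
  · have : Nonempty (Fin n) := ⟨⟨0, Nat.pos_of_ne_zero hn⟩⟩
    rw [spectrum.one_eq] at h8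
    exact h8

end all

end Pool.Agent.N210.WZ
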